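import Mathlib

/-!
The first-order language of groups and two families of sentences.
-/

set_option autoImplicit false

namespace Pool.Agent.R538.EF

open FirstOrder FirstOrder.Language

/-- The function symbols of the language of groups. -/
inductive GFun : ℕ → Type
  | mul : GFun 2
  | inv : GFun 1
  | one : GFun 0

/-- The first-order language of groups: product, inverse, unit. -/
abbrev LG : FirstOrder.Language := FirstOrder.Language.mk GFun (fun _ => Empty)

/-- The first-order structure of a group. -/
@[reducible] def str (G : Type) [Group G] : LG.Structure G :=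
  { funMap := fun {_} f => match f with
      | GFun.mul => fun x => x 0 * x 1
      | GFun.inv => fun x => (x 0)⁻¹
      | GFun.one => fun _ => 1
    RelMap := fun {_} r _ => Empty.elim r }

/-- An elementary free group: a group with the same first-order theory as the free group of
rank two. -/
def IsElementaryFree (G : Type) [Group G] : Prop :=
  @ElementarilyEquivalent LG G (FreeGroup (Fin 2)) (str G) (str (FreeGroup (Fin 2)))

/-- product of terms -/
def tmul {α : Type} (s t : LG.Term α) : LG.Term α := Functions.apply₂ (L := LG) GFun.mul s t
/-- inverse of a term -/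
def tinv {α : Type} (s : LG.Term α) : LG.Term α := Functions.apply₁ (L := LG) GFun.inv s
/-- unit term -/
def tone {α : Type} : LG.Term α := Constants.term (L := LG) (GFun.one : LG.Constants)

theorem realize_tmul (G : Type) [Group G] {α : Type} (s t : LG.Term α) (v : α → G) :
    @Term.realize LG G (str G) α v (tmul s t) =
      @Term.realize LG G (str G) α v s * @Term.realize LG G (str G) α v t := by
  letI := str G
  rw [tmul, Term.realize_functions_apply₂]
  rfl

theorem realize_tinv (G : Type) [Group G] {α : Type} (s : LG.Term α) (v : α → G) :
    @Term.realize LG G (str G) α v (tinv s) = (@Term.realize LG G (str G) α v s)⁻¹ := by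
  letI := str G
  rw [tinv, Term.realize_functions_apply₁]
  rfl

theorem realize_tone (G : Type) [Group G] {α : Type} (v : α → G) :
    @Term.realize LG G (str G) α v tone = 1 := by
  letI := str G
  rw [tone, Term.realize_constants]
  rfl

/-- The term of a word of letters. -/
def wterm {n : ℕ} : List (Fin n × Bool) → LG.Term (Empty ⊕ Fin n)
  | [] => tone
  | x :: L => tmul (if x.2 then Term.var (Sum.inr x.1) else tinv (Term.var (Sum.inr x.1))) (wterm L)

theorem realize_wterm (G : Type) [Group G] {n : ℕ} (L : List (Fin n × Bool)) (v : Empty ⊕ Fin n → G) :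
    @Term.realize LG G (str G) _ v (wterm L) =
      FreeGroup.lift (fun i => v (Sum.inr i)) (FreeGroup.mk L) := by
  induction L with
  | nil => rw [wterm, realize_tone, ← FreeGroup.one_eq_mk, map_one]
  | cons x L ih =>
    rw [wterm, realize_tmul, ih]
    simp only [FreeGroup.lift_mk, List.map_cons, List.prod_cons]
    congr 1
    obtain ⟨i, b⟩ := x
    cases b
    · simp only [Bool.false_eq_true, if_false, cond_false]
      rw [realize_tinv]; rfl
    · simp only [if_true, cond_true]
      rfl

/-- The universal sentence: for all `x`, if all words of the list `R` vanish at `x`, then `w`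
vanishes at `x`. -/
noncomputable def univSent {n : ℕ} (R : List (FreeGroup (Fin n))) (w : FreeGroup (Fin n)) :
    LG.Sentence :=
  Formula.iAlls (Fin n) (α := Empty)
    ((List.foldr (fun (r : FreeGroup (Fin n)) (φ : LG.Formula (Empty ⊕ Fin n)) =>
      (Term.equal (wterm r.toWord) tone : LG.Formula (Empty ⊕ Fin n)) ⊓ φ) ⊤ R).imp
      (Term.equal (wterm w.toWord) tone : LG.Formula (Empty ⊕ Fin n)))

theorem realize_univSent (G : Type) [Group G] {n : ℕ} (R : List (FreeGroup (Fin n)))
    (w : FreeGroup (Fin n)) :
    @Sentence.Realize LG G (str G) (univSent R w) ↔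
      ∀ x : Fin n → G, (∀ r ∈ R, FreeGroup.lift x r = 1) → FreeGroup.lift x w = 1 := by
  letI := str G
  have key : ∀ (x : Fin n → G) (r : FreeGroup (Fin n)),
      (Term.equal (wterm r.toWord) tone : LG.Formula (Empty ⊕ Fin n)).Realize
        (Sum.elim (default : Empty → G) x) ↔ FreeGroup.lift x r = 1 := by
    intro x r
    rw [Formula.realize_equal]
    have h1 := realize_wterm G r.toWord (Sum.elim (default : Empty → G) x)
    have h2 := realize_tone G (Sum.elim (default : Empty → G) x)
    rw [h1, h2, FreeGroup.mk_toWord]
    simp only [Sum.elim_inr]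
  have key2 : ∀ (x : Fin n → G) (R : List (FreeGroup (Fin n))),
      (List.foldr (fun (r : FreeGroup (Fin n)) (φ : LG.Formula (Empty ⊕ Fin n)) =>
      (Term.equal (wterm r.toWord) tone : LG.Formula (Empty ⊕ Fin n)) ⊓ φ) ⊤ R).Realize
        (Sum.elim (default : Empty → G) x) ↔ ∀ r ∈ R, FreeGroup.lift x r = 1 := by
    intro x R
    induction R with
    | nil => simp [Formula.realize_top]
    | cons r R ih =>
      rw [List.foldr_cons, Formula.realize_inf, ih, key]
      simp
  rw [univSent, Sentence.Realize, Formula.realize_iAlls]
  refine forall_congr' fun x => ?_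
  rw [Formula.realize_imp, key2, key]

end Pool.Agent.R538.EF
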