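import Mathlib
import Pool.Agent.R538.EF.Lang

/-!
The root sentence and the passage from structures to groups.
-/

set_option autoImplicit false
set_option linter.style.haveILetI false

namespace Pool.Agent.R538.EF

open FirstOrder FirstOrder.Language

/-- a variable as a term -/
def tv {n : ℕ} (i : Fin n) : LG.Term (Empty ⊕ Fin n) := Term.var (Sum.inr i)

/-- The root sentence. -/
noncomputable def rootSent : LG.Sentence :=
  ((((tmul (tv 0) (tv 1)).bdEqual (tmul (tv 1) (tv 0)) : LG.BoundedFormula Empty 2).imp
    ((((tmul (tv 2) (tv 0)).bdEqual (tmul (tv 0) (tv 2)) : LG.BoundedFormula Empty 3) ⊓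
      (((tmul (tv 2) (tv 1)).bdEqual (tmul (tv 1) (tv 2)) : LG.BoundedFormula Empty 3) ⊓
        ((((tmul (tv 3) (tv 0)).bdEqual (tmul (tv 0) (tv 3)) : LG.BoundedFormula Empty 4).imp
          (((tmul (tv 3) (tv 1)).bdEqual (tmul (tv 1) (tv 3)) : LG.BoundedFormula Empty 4).imp
            ((tmul (tv 3) (tv 2)).bdEqual (tmul (tv 2) (tv 3)) : LG.BoundedFormula Empty 4))).all ⊓
          (((tv 0).bdEqual (tmul (tv 2) (tv 2)) : LG.BoundedFormula Empty 3) ⊔
            (((tv 1).bdEqual (tmul (tv 2) (tv 2)) : LG.BoundedFormula Empty 3) ⊔
              ((tmul (tv 0) (tv 1)).bdEqual (tmul (tv 2) (tv 2)) :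
                LG.BoundedFormula Empty 3)))))).ex)).all).all

theorem realize_rootSent (G : Type) [Group G] :
    @Sentence.Realize LG G (str G) rootSent ↔
      ∀ x y : G, x * y = y * x → ∃ c : G, c * x = x * c ∧ c * y = y * c ∧
        (∀ u : G, u * x = x * u → u * y = y * u → u * c = c * u) ∧
        (x = c * c ∨ y = c * c ∨ x * y = c * c) := by
  letI := str G
  rw [Sentence.Realize, Formula.Realize, rootSent, BoundedFormula.realize_all]
  refine forall_congr' fun x => ?_
  rw [BoundedFormula.realize_all]
  refine forall_congr' fun y => ?_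
  rw [BoundedFormula.realize_imp, BoundedFormula.realize_ex]
  simp only [BoundedFormula.realize_bdEqual, BoundedFormula.realize_inf,
    BoundedFormula.realize_sup, BoundedFormula.realize_all, BoundedFormula.realize_imp,
    realize_tmul, tv, Term.realize_var, Sum.elim_inr]
  simp only [Fin.snoc, Fin.castLT]
  rfl

/-- associativity -/
noncomputable def assocSent : LG.Sentence :=
  ((((tmul (tmul (tv 0) (tv 1)) (tv 2)).bdEqual (tmul (tv 0) (tmul (tv 1) (tv 2))) :
    LG.BoundedFormula Empty 3).all).all).all
/-- left unit -/
noncomputable def oneSent : LG.Sentence :=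
  ((tmul tone (tv 0)).bdEqual (tv 0) : LG.BoundedFormula Empty 1).all
/-- left inverse -/
noncomputable def invSent : LG.Sentence :=
  ((tmul (tinv (tv 0)) (tv 0)).bdEqual tone : LG.BoundedFormula Empty 1).all

theorem exists_group (M : Type) (s : LG.Structure M) (G : Type) [Group G]
    (h : @ElementarilyEquivalent LG M G s (str G)) : ∃ g : Group M, @str M g = s := by
  have h0 : ∀ φ : LG.Sentence, @Sentence.Realize LG M s φ ↔ @Sentence.Realize LG G (str G) φ := by
    intro φ
    exact (@elementarilyEquivalent_iff LG M G s (str G)).1 h φ
  have ha : @Sentence.Realize LG M s assocSent := by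
    rw [h0]
    letI := str G
    rw [Sentence.Realize, Formula.Realize, assocSent]
    simp only [BoundedFormula.realize_bdEqual, BoundedFormula.realize_all,
      realize_tmul, mul_assoc, implies_true]
  have hb : @Sentence.Realize LG M s oneSent := by
    rw [h0]
    letI := str G
    rw [Sentence.Realize, Formula.Realize, oneSent]
    simp only [BoundedFormula.realize_bdEqual, BoundedFormula.realize_all,
      realize_tmul, realize_tone, one_mul, implies_true]
  have hc : @Sentence.Realize LG M s invSent := by
    rw [h0]
    letI := str G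
    rw [Sentence.Realize, Formula.Realize, invSent]
    simp only [BoundedFormula.realize_bdEqual, BoundedFormula.realize_all,
      realize_tmul, realize_tone, realize_tinv, inv_mul_cancel, implies_true]
  letI := s
  rw [Sentence.Realize, Formula.Realize, assocSent] at ha
  rw [Sentence.Realize, Formula.Realize, oneSent] at hb
  rw [Sentence.Realize, Formula.Realize, invSent] at hc
  simp only [BoundedFormula.realize_bdEqual, BoundedFormula.realize_all,
    tmul, tinv, tone, tv, Term.realize_functions_apply₂, Term.realize_functions_apply₁,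
    Term.realize_constants, Term.realize_var, Sum.elim_inr] at ha hb hc
  simp only [Fin.snoc, Fin.castLT] at ha hb hc
  letI : Mul M := ⟨fun x y => Structure.funMap (L := LG) (GFun.mul : LG.Functions 2) ![x, y]⟩
  letI : Inv M := ⟨fun x => Structure.funMap (L := LG) (GFun.inv : LG.Functions 1) ![x]⟩
  letI : One M := ⟨Structure.funMap (L := LG) (GFun.one : LG.Functions 0) default⟩
  let g : Group M := Group.ofLeftAxioms (fun x y z => ha x y z) (fun x => hb x) (fun x => hc x)
  refine ⟨g, ?_⟩
  refine Structure.ext ?_ ?_
  · funext n f x
    cases f with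
    | mul =>
      have h1 : x = ![x 0, x 1] := by
        funext i; fin_cases i <;> rfl
      conv_rhs => rw [h1]
      rfl
    | inv =>
      have h1 : x = ![x 0] := by
        funext i; fin_cases i; rfl
      conv_rhs => rw [h1]
      rfl
    | one =>
      have h1 : x = default := Subsingleton.elim _ _
      conv_rhs => rw [h1]
      rfl
  · funext n r
    exact Empty.elim r

end Pool.Agent.R538.EF
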