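import Mathlib
import Pool.Agent.R538.EF.Sent

/-!
A countable elementary free group with a free abelian subgroup of rank two.
-/

set_option autoImplicit false
set_option linter.style.haveILetI false

namespace Pool.Agent.R538.EF

open FirstOrder FirstOrder.Language Filter

instance (n : ℕ) : Subsingleton (GFun n) :=
  ⟨fun a b => by cases a <;> cases b <;> rfl⟩

theorem card_LG : LG.card ≤ Cardinal.aleph0 := by
  rw [Language.card, Cardinal.mk_le_aleph0_iff]
  have h1 : Countable (Σ l, LG.Functions l) :=
    inferInstanceAs (Countable (Σ l, GFun l))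
  have h2 : Countable (Σ l, LG.Relations l) :=
    inferInstanceAs (Countable (Σ _ : ℕ, Empty))
  exact inferInstanceAs (Countable ((Σ l, LG.Functions l) ⊕ (Σ l, LG.Relations l)))

/-- the coset map to the ultrapower -/
noncomputable def pr (G : Type) (x : ℕ → G) : (hyperfilter ℕ : Filter ℕ).Product (fun _ => G) :=
  (x : (hyperfilter ℕ : Filter ℕ).Product (fun _ => G))

theorem pr_eq {G : Type} {x y : ℕ → G} : pr G x = pr G y ↔ ∀ᶠ n in (hyperfilter ℕ : Filter ℕ), x n = y n :=
  Quotient.eq''

theorem exists_ultra : ∃ (M : Type) (g : Group M), @IsElementaryFree M g ∧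
    ∃ c d : M, c * d = d * c ∧ ∀ i j : ℤ, c ^ i * d ^ j = 1 → i = 0 ∧ j = 0 := by
  letI s0 : LG.Structure (FreeGroup (Fin 2)) := str (FreeGroup (Fin 2))
  let M := (hyperfilter ℕ : Filter ℕ).Product (fun _ => FreeGroup (Fin 2))
  letI s : LG.Structure M := Ultraproduct.structure
  have hE : ElementarilyEquivalent LG M (FreeGroup (Fin 2)) := by
    rw [elementarilyEquivalent_iff]
    intro φ
    rw [Ultraproduct.sentence_realize]
    exact eventually_const
  obtain ⟨g, hg⟩ := exists_group M s (FreeGroup (Fin 2)) hE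
  have hmul : ∀ x y : ℕ → FreeGroup (Fin 2),
      (pr _ x : M) * (pr _ y : M) = (pr _ (x * y) : M) := by
    intro x y
    have h1 : (pr _ x : M) * (pr _ y : M) =
        @Structure.funMap LG M (@str M g) 2 GFun.mul ![pr _ x, pr _ y] := rfl
    rw [h1, hg]
    have h2 := Ultraproduct.funMap_cast (L := LG) (u := hyperfilter ℕ)
      (M := fun _ : ℕ => FreeGroup (Fin 2)) (GFun.mul : LG.Functions 2) ![x, y]
    have h3 : (fun i => ((![x, y] : Fin 2 → ℕ → FreeGroup (Fin 2)) i : M)) = ![pr _ x, pr _ y] := by
      funext i; fin_cases i <;> rfl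
    rw [h3] at h2
    exact h2
  let π : (ℕ → FreeGroup (Fin 2)) →* M := MonoidHom.mk' (fun x => pr _ x) (fun x y => (hmul x y).symm)
  refine ⟨M, g, ?_, π (fun _ => FreeGroup.of 0), π (fun n => FreeGroup.of 0 ^ n), ?_, ?_⟩
  · rw [IsElementaryFree, hg]
    exact hE
  · rw [← map_mul, ← map_mul]
    congr 1
    funext n
    simp only [Pi.mul_apply]
    rw [← pow_succ', ← pow_succ]
  · intro i j h
    rw [← map_zpow, ← map_zpow, ← map_mul, ← map_one π] at h
    have h1 : ∀ᶠ n : ℕ in (hyperfilter ℕ : Filter ℕ), i + (n : ℤ) * j = 0 := by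
      refine (pr_eq.1 h).mono fun n hn => ?_
      simp only [Pi.mul_apply, Pi.pow_apply, Pi.one_apply] at hn
      rw [← zpow_natCast, ← zpow_mul, ← zpow_add] at hn
      have h2 : (FreeGroup.of (0 : Fin 2)) ≠ 1 := FreeGroup.of_ne_one 0
      exact injective_zpow_iff_not_isOfFinOrder.2 (not_isOfFinOrder_of_isMulTorsionFree h2)
        (by simpa using hn)
    have hj : j = 0 := by
      by_contra hj
      have hfin : {n : ℕ | i + (n : ℤ) * j = 0}.Finite := by
        apply Set.Subsingleton.finite
        intro n hn m hm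
        simp only [Set.mem_ofPred_eq] at hn hm
        have : ((n : ℤ) - m) * j = 0 := by linarith
        rcases mul_eq_zero.1 this with h | h
        · omega
        · exact absurd h hj
      have := notMem_hyperfilter_of_finite hfin
      exact this h1
    subst hj
    simp only [mul_zero, add_zero] at h1
    exact ⟨eventually_const.1 h1, rfl⟩

theorem exists_countable : ∃ (S : Type) (g : Group S), Countable S ∧ @IsElementaryFree S g ∧
    ∃ c d : S, c * d = d * c ∧ ∀ i j : ℤ, c ^ i * d ^ j = 1 → i = 0 ∧ j = 0 := by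
  obtain ⟨M, g, hM, c, d, hcd, hind⟩ := exists_ultra
  letI s : LG.Structure M := @str M g
  have hinf : Infinite M := by
    apply Infinite.of_injective (fun n : ℕ => c ^ n)
    intro n m hnm
    simp only at hnm
    have : c ^ ((n : ℤ) - m) * d ^ (0 : ℤ) = 1 := by
      rw [zpow_sub, zpow_natCast, zpow_natCast, hnm]
      simp
    have := (hind _ _ this).1
    omega
  obtain ⟨S, hS1, hS2⟩ := exists_elementarySubstructure_card_eq LG ({c, d} : Set M)
    Cardinal.aleph0 le_rfl (by simpa using (Set.toFinite ({c, d} : Set M)).countable.le_aleph0)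
    (by simpa using card_LG) (by simp)
  have hE : @ElementarilyEquivalent LG S (FreeGroup (Fin 2)) _ (str (FreeGroup (Fin 2))) := by
    letI := str (FreeGroup (Fin 2))
    have h1 : ElementarilyEquivalent LG S M := S.elementarilyEquivalent
    have h2 : ElementarilyEquivalent LG M (FreeGroup (Fin 2)) := hM
    exact h1.trans h2
  obtain ⟨gS, hgS⟩ := exists_group S _ (FreeGroup (Fin 2)) hE
  have hmul : ∀ x y : S, ((x * y : S) : M) = (x : M) * (y : M) := by
    intro x y
    have h1 : x * y = @Structure.funMap LG S (@str S gS) 2 GFun.mul ![x, y] := rfl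
    rw [h1, hgS]
    have h2 := S.subtype.map_fun (GFun.mul : LG.Functions 2) ![x, y]
    exact h2
  let ι : S →* M := MonoidHom.mk' (fun x => (x : M)) hmul
  have hι : Function.Injective ι := Subtype.val_injective
  refine ⟨S, gS, ?_, ?_, ⟨c, hS1 (by simp)⟩, ⟨d, hS1 (by simp)⟩, ?_, ?_⟩
  · rw [← Cardinal.mk_le_aleph0_iff]
    have : Cardinal.lift.{0} (Cardinal.mk S) = Cardinal.lift.{0} Cardinal.aleph0 := hS2
    simp at this
    exact this.le
  · rw [IsElementaryFree, hgS]
    exact hE
  · apply hι
    rw [map_mul, map_mul]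
    exact hcd
  · intro i j h
    apply hind
    have := congrArg ι h
    rw [map_mul, map_zpow, map_zpow, map_one] at this
    exact this

end Pool.Agent.R538.EF
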