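import Mathlib
import Pool.Agent.Helper310.Generic
import Pool.Agent.Helper385.PSL2

/-!
Free groups are equationally Noetherian.
-/

set_option autoImplicit false

namespace Pool.Agent.R538.EF

open MvPolynomial Pool.Agent.Helper310.Generic

theorem en_sl (k : Type) [Field k] (n : ℕ) (R : Set (FreeGroup (Fin n))) :
    ∃ R0 : Finset (FreeGroup (Fin n)), ↑R0 ⊆ R ∧
      ∀ x : Fin n → Matrix.SpecialLinearGroup (Fin 2) k,
        (∀ r ∈ R0, FreeGroup.lift x r = 1) → ∀ r ∈ R, FreeGroup.lift x r = 1 := by
  classical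
  let P := MvPolynomial (Fin n × Fin 4) ℤ
  let Xg : Fin n → Matrix.SpecialLinearGroup (Fin 2) P := fun i => el (fun j => X (i, j))
  let ent : FreeGroup (Fin n) → Fin 2 × Fin 2 → P := fun r p =>
    (FreeGroup.lift Xg r : Matrix (Fin 2) (Fin 2) P) p.1 p.2 - (1 : Matrix (Fin 2) (Fin 2) P) p.1 p.2
  let S : Set P := {q | ∃ r ∈ R, ∃ p, q = ent r p}
  have hfg : (Submodule.span P S).FG := IsNoetherian.noetherian _
  obtain ⟨S', hS', hspan⟩ := (Submodule.fg_span_iff_fg_span_finset_subset S).1 hfg
  have hch : ∀ q ∈ S', ∃ r ∈ R, ∃ p, q = ent r p := fun q hq => hS' hq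
  choose! f hfR hfp using hch
  refine ⟨S'.image f, ?_, ?_⟩
  · intro r hr
    rw [Finset.coe_image] at hr
    obtain ⟨q, hq, rfl⟩ := hr
    exact hfR q hq
  · intro x hx r hr
    choose v hv using fun i => el_surj (x i)
    let ev : P →+* k := eval₂Hom (Int.castRingHom k) (fun p => v p.1 p.2)
    have hmap : (Matrix.SpecialLinearGroup.map ev).comp (FreeGroup.lift Xg) = FreeGroup.lift x := by
      apply FreeGroup.ext_hom
      intro i
      rw [MonoidHom.comp_apply, FreeGroup.lift_apply_of, FreeGroup.lift_apply_of]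
      show Matrix.SpecialLinearGroup.map ev (el _) = x i
      rw [map_el, ← hv i]
      congr 1
      funext j
      exact eval₂Hom_X' _ _ _
    have hone : ∀ s : FreeGroup (Fin n), FreeGroup.lift x s = 1 ↔ ∀ p, ev (ent s p) = 0 := by
      intro s
      rw [← hmap, MonoidHom.comp_apply]
      constructor
      · intro h p
        have h1 := congrArg (fun A : Matrix.SpecialLinearGroup (Fin 2) k =>
          (A : Matrix (Fin 2) (Fin 2) k) p.1 p.2) h
        simp only [map_coe, Matrix.map_apply, Matrix.SpecialLinearGroup.coe_one] at h1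
        show ev (_ - _) = 0
        rw [map_sub, h1, Matrix.one_apply, Matrix.one_apply]
        split_ifs <;> simp
      · intro h
        apply Subtype.ext
        ext i j
        have h1 := h (i, j)
        change ev (_ - _) = 0 at h1
        rw [map_sub, sub_eq_zero] at h1
        rw [map_coe, Matrix.map_apply, h1, Matrix.SpecialLinearGroup.coe_one, Matrix.one_apply,
          Matrix.one_apply]
        split_ifs <;> simp
    rw [hone]
    have hle : Submodule.span P S ≤ (RingHom.ker ev : Ideal P) := by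
      rw [hspan]
      apply Submodule.span_le.2
      intro q hq
      have h1 := hx (f q) (Finset.mem_image_of_mem f hq)
      rw [hone] at h1
      obtain ⟨p, hp⟩ := hfp q hq
      rw [SetLike.mem_coe, RingHom.mem_ker, hp]
      exact h1 p
    intro p
    exact hle (Submodule.subset_span ⟨r, hr, p, rfl⟩)

theorem en_free (n : ℕ) (R : Set (FreeGroup (Fin n))) :
    ∃ R0 : Finset (FreeGroup (Fin n)), ↑R0 ⊆ R ∧
      ∀ x : Fin n → FreeGroup (Fin 2),
        (∀ r ∈ R0, FreeGroup.lift x r = 1) → ∀ r ∈ R, FreeGroup.lift x r = 1 := by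
  obtain ⟨R0, h1, h2⟩ := en_sl (RatFunc ℚ) n R
  let θ : FreeGroup (Fin 2) →* Matrix.SpecialLinearGroup (Fin 2) (RatFunc ℚ) :=
    (Matrix.SpecialLinearGroup.map (algebraMap (Polynomial ℚ) (RatFunc ℚ))).comp
      (FreeGroup.lift (Pool.Agent.Helper385.PSL2.fam ℚ))
  have hθ : Function.Injective θ := by
    rw [injective_iff_map_eq_one]
    intro w hw
    by_contra hne
    have h3 := Pool.Agent.Helper385.PSL2.trace_natDegree_pos (K := ℚ) w hne
    have h4 : FreeGroup.lift (Pool.Agent.Helper385.PSL2.fam ℚ) w = 1 := by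
      apply Subtype.ext
      ext1 i j
      have h5 := congrArg (fun A : Matrix.SpecialLinearGroup (Fin 2) (RatFunc ℚ) =>
          (A : Matrix (Fin 2) (Fin 2) (RatFunc ℚ)) i j) hw
      simp only [θ, MonoidHom.comp_apply, map_coe, Matrix.map_apply,
        Matrix.SpecialLinearGroup.coe_one] at h5
      apply RatFunc.algebraMap_injective ℚ
      rw [h5, Matrix.SpecialLinearGroup.coe_one, Matrix.one_apply, Matrix.one_apply]
      split_ifs <;> simp
    rw [h4] at h3
    simp at h3
  have hl : ∀ (x : Fin n → FreeGroup (Fin 2)) (r : FreeGroup (Fin n)),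
      FreeGroup.lift (fun i => θ (x i)) r = θ (FreeGroup.lift x r) := by
    intro x r
    have : FreeGroup.lift (fun i => θ (x i)) = θ.comp (FreeGroup.lift x) := by
      apply FreeGroup.ext_hom
      intro i
      simp
    rw [this]; rfl
  refine ⟨R0, h1, fun x hx r hr => ?_⟩
  apply hθ
  rw [map_one, ← hl]
  apply h2 _ _ r hr
  intro r' hr'
  rw [hl, hx r' hr', map_one]

end Pool.Agent.R538.EF
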