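import Mathlib
import Pool.Agent.R538.EF.Sent
import Pool.Agent.R538.EF.Noeth
import Pool.Agent.Helper180.FreeMetric

/-!
A finitely generated elementary free group contains no free abelian group of rank two.
-/

set_option autoImplicit false
set_option linter.style.haveILetI false

namespace Pool.Agent.R538.EF

open FirstOrder FirstOrder.Language


theorem residual {G : Type} [Group G] (n : ℕ) (g : Fin n → G)
    (hs : Function.Surjective (FreeGroup.lift g))
    (hu : ∀ (R : List (FreeGroup (Fin n))) (w : FreeGroup (Fin n)),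
      (∀ x : Fin n → FreeGroup (Fin 2), (∀ r ∈ R, FreeGroup.lift x r = 1) →
        FreeGroup.lift x w = 1) →
      (∀ r ∈ R, FreeGroup.lift g r = 1) → FreeGroup.lift g w = 1)
    (a : G) (ha : a ≠ 1) : ∃ φ : G →* FreeGroup (Fin 2), φ a ≠ 1 := by
  obtain ⟨w, rfl⟩ := hs a
  obtain ⟨R0, h1, h2⟩ := en_free n {r | FreeGroup.lift g r = 1}
  have h3 : ¬ ∀ x : Fin n → FreeGroup (Fin 2), (∀ r ∈ R0.toList, FreeGroup.lift x r = 1) →
        FreeGroup.lift x w = 1 := by
    intro h
    apply ha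
    apply hu R0.toList w h
    intro r hr
    exact h1 (Finset.mem_coe.2 (Finset.mem_toList.1 hr))
  push Not at h3
  obtain ⟨x, hx, hw⟩ := h3
  have h4 := h2 x (fun r hr => hx r (Finset.mem_toList.2 hr))
  have hker : (FreeGroup.lift g).ker ≤ (FreeGroup.lift x).ker := by
    intro r hr
    exact h4 r hr
  refine ⟨(FreeGroup.lift g).liftOfRightInverse (Function.surjInv hs)
    (Function.rightInverse_surjInv hs) ⟨FreeGroup.lift x, hker⟩, ?_⟩
  rw [MonoidHom.liftOfRightInverse_comp_apply]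
  exact hw

theorem root_free (x y : FreeGroup (Fin 2)) (h : x * y = y * x) :
    ∃ c : FreeGroup (Fin 2), c * x = x * c ∧ c * y = y * c ∧
        (∀ u : FreeGroup (Fin 2), u * x = x * u → u * y = y * u → u * c = c * u) ∧
        (x = c * c ∨ y = c * c ∨ x * y = c * c) := by
  by_cases hx : x = 1
  · subst hx
    exact ⟨1, by simp, by simp, by simp, by simp⟩
  obtain ⟨z, hz, hc⟩ := Pool.Agent.Helper180.FreeMetric.centralizer_cyclic x hx
  obtain ⟨k, hk⟩ := hc x rfl
  obtain ⟨l, hl⟩ := hc y h.symm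
  have hcomm : ∀ i j : ℤ, z ^ i * z ^ j = z ^ j * z ^ i := fun i j => by
    rw [← zpow_add, ← zpow_add, add_comm]
  have hmain : ∀ j : ℤ, (x = z ^ j * z ^ j ∨ y = z ^ j * z ^ j ∨ x * y = z ^ j * z ^ j) →
      ∃ c : FreeGroup (Fin 2), c * x = x * c ∧ c * y = y * c ∧
        (∀ u : FreeGroup (Fin 2), u * x = x * u → u * y = y * u → u * c = c * u) ∧
        (x = c * c ∨ y = c * c ∨ x * y = c * c) := by
    intro j hj
    refine ⟨z ^ j, ?_, ?_, ?_, hj⟩
    · rw [hk]; exact hcomm _ _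
    · rw [hl]; exact hcomm _ _
    · intro u hu _
      obtain ⟨m, rfl⟩ := hc u hu
      exact hcomm _ _
  rcases Int.even_or_odd k with ⟨k', hk'⟩ | ⟨k', hk'⟩
  · apply hmain k'
    left
    rw [hk, ← zpow_add, hk']
  · rcases Int.even_or_odd l with ⟨l', hl'⟩ | ⟨l', hl'⟩
    · apply hmain l'
      right; left
      rw [hl, ← zpow_add, hl']
    · apply hmain (k' + l' + 1)
      right; right
      rw [hk, hl, ← zpow_add, ← zpow_add, hk', hl']
      congr 1
      ring

theorem zinj {z : FreeGroup (Fin 2)} (hz : z ≠ 1) {i j : ℤ} (h : z ^ i = z ^ j) : i = j :=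
  injective_zpow_iff_not_isOfFinOrder.2 (not_isOfFinOrder_of_isMulTorsionFree hz) h

theorem no_Z2 (G : Type) [Group G] (hfg : Group.FG G) (hef : IsElementaryFree G) (a b : G)
    (hab : a * b = b * a) (hind : ∀ i j : ℤ, a ^ i * b ^ j = 1 → i = 0 ∧ j = 0) : False := by
  have h0 : ∀ φ : LG.Sentence, @Sentence.Realize LG G (str G) φ ↔
      @Sentence.Realize LG (FreeGroup (Fin 2)) (str (FreeGroup (Fin 2))) φ := by
    intro φ
    exact (@elementarilyEquivalent_iff LG G (FreeGroup (Fin 2)) (str G)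
      (str (FreeGroup (Fin 2)))).1 hef φ
  have hroot := (realize_rootSent G).1 ((h0 _).2 ((realize_rootSent (FreeGroup (Fin 2))).2 root_free))
  obtain ⟨n, g, hg⟩ : ∃ (n : ℕ) (g : Fin n → G), Function.Surjective (FreeGroup.lift g) := by
    obtain ⟨α, hα, f, hf⟩ := Group.fg_iff_exists_freeGroup_hom_surjective_finite.1 hfg
    obtain ⟨n, ⟨e⟩⟩ := Finite.exists_equiv_fin α
    refine ⟨n, fun i => f (FreeGroup.of (e.symm i)), ?_⟩
    intro x
    obtain ⟨w, rfl⟩ := hf x
    refine ⟨FreeGroup.map e w, ?_⟩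
    have : (FreeGroup.lift fun i => f (FreeGroup.of (e.symm i))).comp (FreeGroup.map e) = f := by
      apply FreeGroup.ext_hom
      intro i
      simp
    exact DFunLike.congr_fun this w
  have hres : ∀ a : G, a ≠ 1 → ∃ φ : G →* FreeGroup (Fin 2), φ a ≠ 1 := by
    apply residual n g hg
    intro R w h1 h2
    exact (realize_univSent G R w).1 ((h0 _).2 ((realize_univSent (FreeGroup (Fin 2)) R w).2 h1))
      g h2
  have ha1 : a ≠ 1 := by
    intro h
    have := (hind 1 0 (by simp [h])).1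
    exact one_ne_zero this
  obtain ⟨φ₁, h1⟩ := hres a ha1
  obtain ⟨z₁, hz1, hc1⟩ := Pool.Agent.Helper180.FreeMetric.centralizer_cyclic _ h1
  have hC1 : ∀ c : G, c * a = a * c → ∃ m : ℤ, φ₁ c = z₁ ^ m := by
    intro c hc
    apply hc1
    rw [← map_mul, hc, map_mul]
  obtain ⟨k, hk⟩ := hC1 a rfl
  obtain ⟨l, hl⟩ := hC1 b hab.symm
  have hz1n : z₁ ≠ 1 := by
    rintro rfl
    rw [hk, one_zpow] at h1
    exact h1 rfl
  have hk0 : k ≠ 0 := by
    rintro rfl
    rw [hk, zpow_zero] at h1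
    exact h1 rfl
  obtain ⟨φ₂, h2⟩ := hres (a ^ l * b ^ (-k)) (fun h => hk0 (by
    have := (hind _ _ h).2
    omega))
  obtain ⟨z₂, hz2, hc2⟩ := Pool.Agent.Helper180.FreeMetric.centralizer_cyclic _ h2
  have hC2 : ∀ c : G, c * a = a * c → c * b = b * c → ∃ m : ℤ, φ₂ c = z₂ ^ m := by
    intro c hc hcb
    apply hc2
    rw [← map_mul, ← map_mul]
    congr 1
    have hca : Commute c a := hc
    have hcb : Commute c b := hcb
    exact (hca.zpow_right l).mul_right (hcb.zpow_right (-k))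
  obtain ⟨k2, hk2⟩ := hC2 a rfl hab
  obtain ⟨l2, hl2⟩ := hC2 b hab.symm rfl
  have hz2n : z₂ ≠ 1 := by
    rintro rfl
    rw [map_mul, map_zpow, map_zpow, hk2, hl2, one_zpow, one_zpow, one_zpow, one_zpow, mul_one] at h2
    exact h2 rfl
  have hdet : k * l2 - l * k2 ≠ 0 := by
    intro h
    apply h2
    rw [map_mul, map_zpow, map_zpow, hk2, hl2, ← zpow_mul, ← zpow_mul, ← zpow_add]
    have : k2 * l + l2 * -k = 0 := by linarith
    rw [this, zpow_zero]
  have main : ∀ (N : ℕ) (p q : G) (k1 l1 k2 l2 : ℤ), p * q = q * p → p * a = a * p → p * b = b * p →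
      q * a = a * q → q * b = b * q → φ₁ p = z₁ ^ k1 → φ₁ q = z₁ ^ l1 → φ₂ p = z₂ ^ k2 →
      φ₂ q = z₂ ^ l2 → (k1 * l2 - l1 * k2).natAbs = N → N ≠ 0 → False := by
    intro N
    induction N using Nat.strong_induction_on with
    | _ N ih =>
    intro p q k1 l1 k2 l2 hpq hpa hpb hqa hqb e1 e2 e3 e4 hN hN0
    obtain ⟨c, hcp, hcq, hcu, hcases⟩ := hroot p q hpq
    have hca : c * a = a * c := (hcu a hpa.symm hqa.symm).symm
    have hcb : c * b = b * c := (hcu b hpb.symm hqb.symm).symm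
    obtain ⟨m1, hm1⟩ := hC1 c hca
    obtain ⟨m2, hm2⟩ := hC2 c hca hcb
    rcases hcases with h | h | h
    · have f1 : k1 = m1 + m1 := by
        apply zinj hz1n
        rw [← e1, h, map_mul, hm1, zpow_add]
      have f2 : k2 = m2 + m2 := by
        apply zinj hz2n
        rw [← e3, h, map_mul, hm2, zpow_add]
      have f3 : k1 * l2 - l1 * k2 = 2 * (m1 * l2 - l1 * m2) := by rw [f1, f2]; ring
      exact ih _ (by omega) c q m1 l1 m2 l2 hcq hca hcb hqa hqb hm1 e2 hm2 e4 rfl (by omega)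
    · have f1 : l1 = m1 + m1 := by
        apply zinj hz1n
        rw [← e2, h, map_mul, hm1, zpow_add]
      have f2 : l2 = m2 + m2 := by
        apply zinj hz2n
        rw [← e4, h, map_mul, hm2, zpow_add]
      have f3 : k1 * l2 - l1 * k2 = 2 * (k1 * m2 - m1 * k2) := by rw [f1, f2]; ring
      exact ih _ (by omega) p c k1 m1 k2 m2 hcp.symm hpa hpb hca hcb e1 hm1 e3 hm2 rfl (by omega)
    · have f1 : k1 + l1 = m1 + m1 := by
        apply zinj hz1n
        rw [zpow_add, ← e1, ← e2, ← map_mul, h, map_mul, hm1, zpow_add]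
      have f2 : k2 + l2 = m2 + m2 := by
        apply zinj hz2n
        rw [zpow_add, ← e3, ← e4, ← map_mul, h, map_mul, hm2, zpow_add]
      have f3 : k1 * l2 - l1 * k2 = 2 * (k1 * m2 - m1 * k2) := by
        have g1 : l1 = m1 + m1 - k1 := by linarith
        have g2 : l2 = m2 + m2 - k2 := by linarith
        rw [g1, g2]; ring
      exact ih _ (by omega) p c k1 m1 k2 m2 hcp.symm hpa hpb hca hcb e1 hm1 e3 hm2 rfl (by omega)
  exact main _ a b k l k2 l2 hab rfl hab hab.symm rfl hk hl hk2 hl2 rfl (by omega)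

end Pool.Agent.R538.EF
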